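import Mathlib
import Pool.Agent.H91.Neumann

set_option autoImplicit false

namespace Pool.Agent.Results.MP_18d2fb_an.NeumannFails

open Filter Topology

theorem result (𝕜 : Type) [RCLike 𝕜] :
    ∃ (E : Type) (_ : AddCommGroup E) (_ : Module 𝕜 E) (_ : UniformSpace E),
      IsUniformAddGroup E ∧ CompleteSpace E ∧ T2Space E ∧
      (∃ p : ℕ → Seminorm 𝕜 E, WithSeminorms p) ∧
      ∃ U : E →L[𝕜] E, (∀ l : 𝕜, Function.Bijective (fun x : E => x - l • U x)) ∧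
        ∃ x : E, ∀ l : 𝕜, l ≠ 0 → ∀ y : E,
          ¬ Tendsto (fun n : ℕ => ∑ k ∈ Finset.range n, l ^ k • (U ^ k) x) atTop (𝓝 y) :=
  ⟨Pool.Agent.H91.Neumann.Esub 𝕜, inferInstance, inferInstance, inferInstance,
    (Pool.Agent.H91.Neumann.Esub 𝕜).toAddSubgroup.isUniformAddGroup,
    inferInstance, inferInstance, Pool.Agent.H91.Neumann.seminorms 𝕜, Pool.Agent.H91.Neumann.U 𝕜,
    Pool.Agent.H91.Neumann.U_bij 𝕜, Pool.Agent.H91.Neumann.x0 𝕜,
    Pool.Agent.H91.Neumann.diverges 𝕜⟩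

end Pool.Agent.Results.MP_18d2fb_an.NeumannFails
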